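import Mathlib

/-! A search game on a planar network with axis-parallel arcs. -/

namespace Pool.Agent.H.MP_29d814_co

open Set MeasureTheory
open scoped NNReal ENNReal

/-- Length of an axis-parallel displacement: the taxicab distance of the plane. -/
noncomputable def d1 (p q : ℝ × ℝ) : ℝ := |p.1 - q.1| + |p.2 - q.2|

/-- The nine arcs (axis-parallel segments, listed by their end nodes). -/
def arcs : List ((ℝ × ℝ) × (ℝ × ℝ)) :=
  [((0, -10001), (0, -1)), ((0, -1), (0, 0)), ((0, 0), (0, 12)),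
   ((0, 0), (-8, 0)), ((-8, 0), (-8, 12)), ((-8, 12), (0, 12)),
   ((0, 0), (8, 0)), ((8, 0), (8, 12)), ((8, 12), (0, 12))]

/-- The network: the union of its arcs. -/
def Q : Set (ℝ × ℝ) := {z | ∃ a ∈ arcs, z ∈ segment ℝ a.1 a.2}

/-- The starting node. -/
def O : ℝ × ℝ := (0, -1)

/-- Shortest-path distance in the network: the least duration of a path of speed at most one
inside `Q` from `x` to `y`. -/
noncomputable def pathDist (x y : ℝ × ℝ) : ℝ≥0∞ :=
  ⨅ (T : ℝ≥0) (γ : ℝ≥0 → ℝ × ℝ) (_ : γ 0 = x ∧ γ T = y ∧ (∀ t ≤ T, γ t ∈ Q) ∧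
    ∀ s ≤ T, ∀ t ≤ T, d1 (γ s) (γ t) ≤ |(s : ℝ) - t|), (T : ℝ≥0∞)

/-- Search trajectories, with the topology of locally uniform convergence. -/
def Traj : Type :=
  {S : C(ℝ≥0, ℝ × ℝ) // S 0 = O ∧ (∀ t, S t ∈ Q) ∧
    ∀ s t, pathDist (S s) (S t) ≤ ENNReal.ofReal |(s : ℝ) - t|}

instance : TopologicalSpace Traj := instTopologicalSpaceSubtype

instance : MeasurableSpace Traj := borel Traj

/-- Capture time (infinite if the point is never visited). -/
noncomputable def capture (S : Traj) (H : ℝ × ℝ) : ℝ≥0∞ :=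
  ⨅ (t : ℝ≥0) (_ : S.1 t = H), (t : ℝ≥0∞)

/-- Worst-case expected capture time of a mixed search strategy. -/
noncomputable def worst (s : ProbabilityMeasure Traj) : ℝ≥0∞ :=
  ⨆ H ∈ Q, ∫⁻ S, capture S H ∂(s : Measure Traj)

/-- An optimal (minimax) search strategy. -/
def Optimal (s : ProbabilityMeasure Traj) : Prop :=
  worst s = ⨅ s' : ProbabilityMeasure Traj, worst s'

/-- During `[s, t]` the trajectory runs through the segment `[x, y]` from one end to the other. -/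
def Traverses (S : Traj) (x y : ℝ × ℝ) (s t : ℝ≥0) : Prop :=
  s < t ∧ (∀ u ∈ Icc s t, S.1 u ∈ segment ℝ x y) ∧
    ((S.1 s = x ∧ S.1 t = y) ∨ (S.1 s = y ∧ S.1 t = x))

/-- The segment `[x, y]` is traversed three times before all of `Q` has been visited. -/
def Thrice (S : Traj) (x y : ℝ × ℝ) : Prop :=
  ∃ s₁ t₁ s₂ t₂ s₃ t₃ : ℝ≥0, Traverses S x y s₁ t₁ ∧ Traverses S x y s₂ t₂ ∧
    Traverses S x y s₃ t₃ ∧ t₁ ≤ s₂ ∧ t₂ ≤ s₃ ∧ ∃ z ∈ Q, ∀ u ≤ t₃, S.1 u ≠ z

end Pool.Agent.H.MP_29d814_co
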