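import Mathlib
import Pool.Agent.H.MP_29d814_co.Defs

namespace Pool.Agent.H.MP_29d814_co

open Set MeasureTheory Filter Topology
open scoped NNReal ENNReal

lemma d1_nonneg (p q : ℝ × ℝ) : 0 ≤ d1 p q := by unfold d1; positivity

lemma d1_comm (p q : ℝ × ℝ) : d1 p q = d1 q p := by
  unfold d1; rw [abs_sub_comm p.1, abs_sub_comm p.2]

lemma d1_self (p : ℝ × ℝ) : d1 p p = 0 := by simp [d1]

lemma d1_tri (p q r : ℝ × ℝ) : d1 p r ≤ d1 p q + d1 q r := by
  unfold d1
  have h1 := abs_sub_le p.1 q.1 r.1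
  have h2 := abs_sub_le p.2 q.2 r.2
  linarith

lemma dist_le_d1 (p q : ℝ × ℝ) : dist p q ≤ d1 p q := by
  rw [Prod.dist_eq, Real.dist_eq, Real.dist_eq]
  unfold d1
  have h1 := abs_nonneg (p.1 - q.1)
  have h2 := abs_nonneg (p.2 - q.2)
  exact max_le (by linarith) (by linarith)

lemma continuous_d1 : Continuous (fun x : (ℝ × ℝ) × (ℝ × ℝ) => d1 x.1 x.2) := by
  unfold d1; fun_prop

def Lip (γ : ℝ≥0 → ℝ × ℝ) : Prop := ∀ s t : ℝ≥0, d1 (γ s) (γ t) ≤ |(s : ℝ) - t|

lemma d1_le_pathDist (x y : ℝ × ℝ) : ENNReal.ofReal (d1 x y) ≤ pathDist x y := by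
  unfold pathDist
  refine le_iInf fun T => le_iInf fun γ => le_iInf fun h => ?_
  obtain ⟨h0, hT, -, hl⟩ := h
  have := hl 0 (zero_le) T le_rfl
  rw [h0, hT] at this
  simp only [NNReal.coe_zero, zero_sub, abs_neg, NNReal.abs_eq] at this
  rw [← ENNReal.ofReal_coe_nnreal]
  exact ENNReal.ofReal_le_ofReal this

lemma pathDist_le {γ : ℝ≥0 → ℝ × ℝ} (hQ : ∀ t, γ t ∈ Q) (hl : Lip γ) (s t : ℝ≥0) :
    pathDist (γ s) (γ t) ≤ ENNReal.ofReal |(s : ℝ) - t| := by
  unfold pathDist
  rcases le_total s t with h | h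
  · refine iInf_le_of_le (t - s) (iInf_le_of_le (fun u => γ (s + u)) (iInf_le_of_le
      ⟨by simp, by simp [add_tsub_cancel_of_le h], fun u _ => hQ _, fun u _ v _ => ?_⟩ ?_))
    · have := hl (s + u) (s + v)
      simpa using this
    · rw [← ENNReal.ofReal_coe_nnreal, NNReal.coe_sub h, abs_sub_comm]
      exact ENNReal.ofReal_le_ofReal (le_abs_self _)
  · refine iInf_le_of_le (s - t) (iInf_le_of_le (fun u => γ (s - u)) (iInf_le_of_le
      ⟨by simp, by simp [tsub_tsub_cancel_of_le h], fun u _ => hQ _, fun u hu v hv => ?_⟩ ?_))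
    · have := hl (s - u) (s - v)
      rw [NNReal.coe_sub (hu.trans tsub_le_self), NNReal.coe_sub (hv.trans tsub_le_self)] at this
      rw [abs_sub_comm] at this
      have e : (s : ℝ) - v - (s - u) = u - v := by ring
      rwa [e] at this
    · rw [← ENNReal.ofReal_coe_nnreal, NNReal.coe_sub h]
      exact ENNReal.ofReal_le_ofReal (le_abs_self _)

lemma traj_lip (S : Traj) : Lip S.1 := fun s t => by
  have h := (d1_le_pathDist _ _).trans (S.2.2.2 s t)
  exact (ENNReal.ofReal_le_ofReal_iff (abs_nonneg _)).1 h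

lemma Lip.lipschitz {γ : ℝ≥0 → ℝ × ℝ} (h : Lip γ) : LipschitzWith 1 γ :=
  LipschitzWith.of_dist_le_mul fun s t => by
    simpa [NNReal.dist_eq] using (dist_le_d1 _ _).trans (h s t)

noncomputable def mkTraj (γ : ℝ≥0 → ℝ × ℝ) (h0 : γ 0 = O) (hQ : ∀ t, γ t ∈ Q) (hl : Lip γ) :
    Traj := ⟨⟨γ, hl.lipschitz.continuous⟩, h0, hQ, pathDist_le hQ hl⟩

lemma isCompact_seg (p q : ℝ × ℝ) : IsCompact (segment ℝ p q) := by
  rw [segment_eq_image]
  exact isCompact_Icc.image (by fun_prop)

lemma isCompact_Q : IsCompact Q := by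
  have : Q = ⋃ a ∈ {a | a ∈ arcs}, segment ℝ a.1 a.2 := by
    ext z; simp [Q]
  rw [this]
  exact (List.finite_toSet arcs).isCompact_biUnion fun a _ => isCompact_seg _ _

def TSet : Set C(ℝ≥0, ℝ × ℝ) := {S | S 0 = O ∧ (∀ t, S t ∈ Q) ∧
    ∀ s t, pathDist (S s) (S t) ≤ ENNReal.ofReal |(s : ℝ) - t|}

lemma isCompact_TSet : IsCompact TSet := by
  apply ArzelaAscoli.isCompact_of_equicontinuous
  · have e : ContinuousMap.toFun '' TSet =
        (Set.pi univ fun _ : ℝ≥0 => Q) ∩ ({γ | γ 0 = O} ∩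
          ⋂ s : ℝ≥0, ⋂ t : ℝ≥0, {γ | d1 (γ s) (γ t) ≤ |(s : ℝ) - t|}) := by
      ext γ
      simp only [mem_image, mem_inter_iff, Set.mem_pi, mem_univ, forall_const, mem_setOf_eq,
        mem_iInter]
      constructor
      · rintro ⟨S, hS, rfl⟩
        exact ⟨hS.2.1, hS.1, traj_lip ⟨S, hS⟩⟩
      · rintro ⟨hQ, h0, hl⟩
        exact ⟨(mkTraj γ h0 hQ hl).1, (mkTraj γ h0 hQ hl).2, rfl⟩
    rw [e]
    refine (isCompact_univ_pi fun _ => isCompact_Q).inter_right ?_
    refine IsClosed.inter (isClosed_eq (continuous_apply 0) continuous_const) ?_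
    refine isClosed_iInter fun s => isClosed_iInter fun t => ?_
    refine isClosed_le ?_ continuous_const
    unfold d1
    fun_prop
  · have : ∀ S : TSet, LipschitzWith 1 (S.1 : ℝ≥0 → ℝ × ℝ) := fun S =>
      (traj_lip ⟨S.1, S.2⟩).lipschitz
    exact (LipschitzWith.uniformEquicontinuous _ 1 this).equicontinuous

instance : CompactSpace Traj := isCompact_iff_compactSpace.1 isCompact_TSet

instance : T2Space Traj := inferInstanceAs (T2Space TSet)

instance : SecondCountableTopology Traj := inferInstanceAs (SecondCountableTopology TSet)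

instance : BorelSpace Traj := ⟨rfl⟩

instance : TopologicalSpace.MetrizableSpace Traj :=
  TopologicalSpace.metrizableSpace_of_t3_secondCountable Traj

lemma capture_le {S : Traj} {H : ℝ × ℝ} {t : ℝ≥0} (h : S.1 t = H) : capture S H ≤ t :=
  iInf_le_of_le t (iInf_le_of_le h le_rfl)

lemma exists_first {S : Traj} {H : ℝ × ℝ} (h : capture S H ≠ ⊤) :
    ∃ t : ℝ≥0, S.1 t = H ∧ capture S H = t ∧ ∀ u, S.1 u = H → t ≤ u := by
  have hne : (S.1 ⁻¹' {H}).Nonempty := by
    by_contra hc
    apply h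
    unfold capture
    simp only [iInf_eq_top]
    intro t ht
    exact absurd ⟨t, ht⟩ hc
  have hcl : IsClosed (S.1 ⁻¹' {H}) := isClosed_singleton.preimage S.1.continuous
  have hm := hcl.csInf_mem hne (OrderBot.bddBelow _)
  have hle : ∀ u, S.1 u = H → sInf (S.1 ⁻¹' {H}) ≤ u := fun u hu =>
    csInf_le (OrderBot.bddBelow _) hu
  refine ⟨_, hm, le_antisymm (capture_le hm) ?_, hle⟩
  exact le_iInf fun u => le_iInf fun hu => ENNReal.coe_le_coe.2 (hle u hu)

lemma isOpen_lt_capture (H : ℝ × ℝ) (r : ℝ≥0∞) : IsOpen {S : Traj | r < capture S H} := by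
  rcases eq_or_ne r ⊤ with rfl | hr
  · simp
  lift r to ℝ≥0 using hr
  have e : {S : Traj | (r : ℝ≥0∞) < capture S H} =
      Subtype.val ⁻¹' {f : C(ℝ≥0, ℝ × ℝ) | MapsTo f (Icc 0 r) {H}ᶜ} := by
    ext S
    simp only [mem_setOf_eq, mem_preimage]
    constructor
    · intro h t ht hH
      have := capture_le (S := S) hH
      exact absurd (h.trans_le this) (not_lt.2 (ENNReal.coe_le_coe.2 ht.2))
    · intro h
      by_contra hc
      have hc := not_lt.1 hc
      obtain ⟨t, ht, he, -⟩ := exists_first (S := S) (H := H) (ne_top_of_le_ne_top (by simp) hc)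
      rw [he] at hc
      exact h ⟨zero_le, ENNReal.coe_le_coe.1 hc⟩ ht
  rw [e]
  exact (ContinuousMap.isOpen_setOfPred_mapsTo isCompact_Icc isOpen_compl_singleton).preimage
    continuous_subtype_val

lemma measurable_capture (H : ℝ × ℝ) : Measurable fun S => capture S H :=
  measurable_of_Ioi fun r => (isOpen_lt_capture H r).measurableSet

lemma lintegral_le_liminf {f : Traj → ℝ≥0∞} (hf : ∀ r, IsOpen {S | r < f S})
    {μ : ProbabilityMeasure Traj} {μs : ℕ → ProbabilityMeasure Traj}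
    (h : Tendsto μs atTop (𝓝 μ)) :
    ∫⁻ S, f S ∂(μ : Measure Traj) ≤ atTop.liminf fun n => ∫⁻ S, f S ∂(μs n : Measure Traj) := by
  have hm : Measurable f := measurable_of_Ioi fun r => (hf r).measurableSet
  have hN : ∀ N : ℕ, ∫⁻ S, min (f S) N ∂(μ : Measure Traj) ≤
      atTop.liminf fun n => ∫⁻ S, f S ∂(μs n : Measure Traj) := by
    intro N
    set g : Traj → ℝ := fun S => (min (f S) N).toReal with hg
    have hne : ∀ S, min (f S) (N : ℝ≥0∞) ≠ ⊤ := fun S =>
      ne_top_of_le_ne_top (by simp) (min_le_right _ _)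
    have hgm : Measurable g := (hm.min measurable_const).ennreal_toReal
    have hge : ∀ S, min (f S) (N : ℝ≥0∞) = ENNReal.ofReal (g S) := fun S =>
      (ENNReal.ofReal_toReal (hne S)).symm
    have key : ∫⁻ S, ENNReal.ofReal (g S) ∂(μ : Measure Traj) ≤
        atTop.liminf fun n => ∫⁻ S, ENNReal.ofReal (g S) ∂(μs n : Measure Traj) := by
      have hl : ∀ ν : Measure Traj, ∫⁻ S, ENNReal.ofReal (g S) ∂ν =
          ∫⁻ (t : ℝ) in Set.Ioi 0, ν {a | t < g a} := fun ν =>
        lintegral_eq_lintegral_meas_lt ν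
          (Eventually.of_forall fun S => (ENNReal.toReal_nonneg : 0 ≤ g S)) hgm.aemeasurable
      simp_rw [hl]
      calc ∫⁻ (t : ℝ) in Set.Ioi 0, (μ : Measure Traj) {a | t < g a}
          ≤ ∫⁻ (t : ℝ) in Set.Ioi 0,
              atTop.liminf (fun i ↦ (μs i : Measure Traj) {a | t < g a}) := by
            refine setLIntegral_mono' measurableSet_Ioi fun t ht => ?_
            refine ProbabilityMeasure.le_liminf_measure_open_of_tendsto h ?_
            have e : {a | t < g a} =
                {a | ENNReal.ofReal t < f a} ∩ {_a | ENNReal.ofReal t < (N : ℝ≥0∞)} := by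
              ext a
              simp only [mem_setOf_eq, mem_inter_iff, hg]
              rw [← ENNReal.ofReal_lt_iff_lt_toReal (le_of_lt ht) (hne a), lt_min_iff]
            rw [e]
            exact (hf _).inter isOpen_const
        _ ≤ _ := lintegral_liminf_le (fun n ↦ Antitone.measurable (fun s t hst ↦
            measure_mono (fun ω hω ↦ lt_of_le_of_lt hst hω)))
    simp_rw [hge]
    refine key.trans (liminf_le_liminf (Eventually.of_forall fun n => lintegral_mono fun S => ?_))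
    rw [← hge]
    exact min_le_left _ _
  have hs : ∀ S, f S = ⨆ N : ℕ, min (f S) N := by
    intro S
    rw [← inf_iSup_eq, ENNReal.iSup_natCast]
    simp
  calc ∫⁻ S, f S ∂(μ : Measure Traj) = ∫⁻ S, ⨆ N : ℕ, min (f S) N ∂(μ : Measure Traj) := by
        congr 1; funext S; exact hs S
    _ = ⨆ N : ℕ, ∫⁻ S, min (f S) N ∂(μ : Measure Traj) := by
        refine lintegral_iSup (fun N => hm.min measurable_const) ?_
        intro a b hab S
        exact min_le_min le_rfl (by exact_mod_cast hab)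
    _ ≤ _ := iSup_le hN

lemma exists_optimal (s0 : ProbabilityMeasure Traj) : ∃ s, Optimal s := by
  haveI : Nonempty (ProbabilityMeasure Traj) := ⟨s0⟩
  obtain ⟨u, hu⟩ := exists_seq_tendsto_sInf (S := range worst) (range_nonempty _)
    (OrderBot.bddBelow _)
  obtain ⟨-, hu, hmem⟩ := hu
  choose μs hμ using hmem
  obtain ⟨μ, -, φ, hφ, hlim⟩ := isCompact_univ.tendsto_subseq (x := μs) fun n => mem_univ _
  refine ⟨μ, le_antisymm ?_ (iInf_le _ _)⟩
  have ht : Tendsto (fun n => worst (μs (φ n))) atTop (𝓝 (⨅ s, worst s)) := by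
    simp_rw [hμ]
    exact hu.comp hφ.tendsto_atTop
  rw [← ht.liminf_eq]
  refine iSup₂_le fun H hH => (lintegral_le_liminf (isOpen_lt_capture H) hlim).trans ?_
  refine liminf_le_liminf (Eventually.of_forall fun n => ?_)
  exact le_iSup₂_of_le (f := fun H (_ : H ∈ Q) =>
    ∫⁻ S, capture S H ∂((μs (φ n)) : Measure Traj)) H hH le_rfl

end Pool.Agent.H.MP_29d814_co
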