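import Mathlib
import Pool.Agent.H.MP_29d814_co.A

namespace Pool.Agent.H.MP_29d814_co

open Set MeasureTheory Filter Topology
open scoped NNReal ENNReal

noncomputable def line (p q : ℝ × ℝ) (r : ℝ) : ℝ × ℝ :=
  (p.1 + r * (q.1 - p.1), p.2 + r * (q.2 - p.2))

lemma d1_line (p q : ℝ × ℝ) (a b : ℝ) : d1 (line p q a) (line p q b) = |a - b| * d1 p q := by
  unfold d1 line
  simp only
  have e1 : p.1 + a * (q.1 - p.1) - (p.1 + b * (q.1 - p.1)) = (a - b) * -(p.1 - q.1) := by ring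
  have e2 : p.2 + a * (q.2 - p.2) - (p.2 + b * (q.2 - p.2)) = (a - b) * -(p.2 - q.2) := by ring
  rw [e1, e2, abs_mul, abs_mul, abs_neg, abs_neg]; ring

lemma line_zero (p q : ℝ × ℝ) : line p q 0 = p := by simp [line]

lemma line_one (p q : ℝ × ℝ) : line p q 1 = q := by simp [line]

lemma mem_seg_iff {p q z : ℝ × ℝ} :
    z ∈ segment ℝ p q ↔ ∃ r, 0 ≤ r ∧ r ≤ 1 ∧ line p q r = z := by
  rw [segment_eq_image']
  constructor
  · rintro ⟨r, ⟨h0, h1⟩, rfl⟩
    exact ⟨r, h0, h1, by ext <;> simp [line]⟩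
  · rintro ⟨r, h0, h1, rfl⟩
    exact ⟨r, ⟨h0, h1⟩, by ext <;> simp [line]⟩

lemma d1_pos {p q : ℝ × ℝ} (h : p ≠ q) : 0 < d1 p q := by
  refine lt_of_le_of_ne (d1_nonneg _ _) fun h0 => h ?_
  have := dist_le_d1 p q
  rw [← h0] at this
  exact dist_le_zero.1 this

def Vis : (ℝ × ℝ) → List (ℝ × ℝ) → (ℝ≥0 → ℝ × ℝ) → ℝ → Prop
  | _, [], _, _ => True
  | p, q :: l, γ, τ => (∀ z ∈ segment ℝ p q, ∃ t : ℝ≥0, (t : ℝ) ≤ τ + d1 p q ∧ γ t = z) ∧
      Vis q l γ (τ + d1 p q)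

def Ok : (ℝ × ℝ) → List (ℝ × ℝ) → Prop
  | p, [] => p ∈ Q
  | p, q :: l => p ≠ q ∧ segment ℝ p q ⊆ Q ∧ Ok q l

lemma Vis.shift {γ γ' : ℝ≥0 → ℝ × ℝ} {D : ℝ≥0} (h : ∀ t, γ' (t + D) = γ t) :
    ∀ (l : List (ℝ × ℝ)) (p : ℝ × ℝ) (τ : ℝ), Vis p l γ τ → Vis p l γ' (τ + D)
  | [], _, _, _ => trivial
  | q :: l, p, τ, hv => by
    refine ⟨fun z hz => ?_, ?_⟩
    · obtain ⟨t, ht, he⟩ := hv.1 z hz
      exact ⟨t + D, by push_cast; linarith, by rw [h, he]⟩
    · have := Vis.shift h l q _ hv.2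
      rwa [show τ + d1 p q + D = τ + D + d1 p q by ring] at this

lemma exists_walk : ∀ (l : List (ℝ × ℝ)) (p : ℝ × ℝ), Ok p l →
    ∃ γ : ℝ≥0 → ℝ × ℝ, γ 0 = p ∧ (∀ t, γ t ∈ Q) ∧ Lip γ ∧ Vis p l γ 0
  | [], p, h => ⟨fun _ => p, rfl, fun _ => h, fun s t => by simp [d1_self], trivial⟩
  | q :: l, p, h => by
    obtain ⟨γ, h0, hQ, hl, hv⟩ := exists_walk l q h.2.2
    have hD := d1_pos h.1
    set D : ℝ≥0 := ⟨d1 p q, hD.le⟩ with hDdef
    have hDr : (D : ℝ) = d1 p q := rfl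
    set γ' : ℝ≥0 → ℝ × ℝ := fun t => if t ≤ D then line p q (t / D) else γ (t - D) with hγ'
    have hlow : ∀ t, t ≤ D → γ' t = line p q (t / D) := fun t ht => by simp [hγ', ht]
    have hsh : ∀ t, γ' (t + D) = γ t := by
      intro t
      by_cases ht : t + D ≤ D
      · have : t = 0 := by simpa using ht
        subst this
        rw [hlow _ ht, h0]
        simp [hDr, hD.ne', line_one]
      · simp [hγ', ht]
    have hhi : ∀ t, D ≤ t → γ' t = γ (t - D) := fun t ht => by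
      rw [← hsh, tsub_add_cancel_of_le ht]
    have hmix : ∀ s t : ℝ≥0, s ≤ D → D ≤ t → d1 (γ' s) (γ' t) ≤ |(s : ℝ) - t| := by
      intro s t hs ht
      rw [hlow s hs, hhi t ht]
      have h1 := d1_line p q (s / D) 1
      rw [line_one] at h1
      have h2 := hl 0 (t - D)
      rw [h0, NNReal.coe_sub ht] at h2
      have hs' : (s : ℝ) ≤ D := hs
      have ht' : (D : ℝ) ≤ t := ht
      have h3 : |(s : ℝ) / D - 1| * d1 p q = D - s := by
        rw [abs_of_nonpos (by rw [sub_nonpos, div_le_one (by rw [hDr]; exact hD)]; exact hs'),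
          ← hDr]
        have : (D : ℝ) ≠ 0 := by rw [hDr]; exact hD.ne'
        field_simp
        ring
      have h4 := d1_tri (line p q (s / D)) q (γ (t - D))
      rw [abs_of_nonpos (by simp; linarith)] at h2
      rw [abs_of_nonpos (by linarith)]
      simp only [NNReal.coe_zero] at h2
      linarith
    refine ⟨γ', by rw [hlow 0 zero_le]; simp [line_zero], fun t => ?_, fun s t => ?_, ?_, ?_⟩
    · rcases le_total t D with ht | ht
      · rw [hlow t ht]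
        refine h.2.1 (mem_seg_iff.2 ⟨_, by positivity, ?_, rfl⟩)
        rw [div_le_one (by rw [hDr]; exact hD)]; exact ht
      · rw [hhi t ht]; exact hQ _
    · rcases le_total s D with hs | hs <;> rcases le_total t D with ht | ht
      · rw [hlow s hs, hlow t ht, d1_line, ← sub_div, abs_div, ← hDr, NNReal.abs_eq,
          div_mul_cancel₀ _ (by rw [hDr]; exact hD.ne')]
      · exact hmix s t hs ht
      · rw [d1_comm, abs_sub_comm]; exact hmix t s ht hs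
      · rw [hhi s hs, hhi t ht]
        have := hl (s - D) (t - D)
        rw [NNReal.coe_sub hs, NNReal.coe_sub ht] at this
        rwa [show (s : ℝ) - D - (t - D) = s - t by ring] at this
    · intro z hz
      obtain ⟨r, h0r, h1r, rfl⟩ := mem_seg_iff.1 hz
      lift r to ℝ≥0 using h0r
      have hle : r * D ≤ D := by
        rw [← NNReal.coe_le_coe]; push_cast
        have : (0 : ℝ) ≤ D := D.2
        nlinarith
      refine ⟨r * D, by rw [zero_add, ← hDr]; exact hle, ?_⟩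
      rw [hlow _ hle]
      congr 1
      push_cast
      have : (D : ℝ) ≠ 0 := by rw [hDr]; exact hD.ne'
      field_simp
    · have := Vis.shift hsh l q 0 hv
      rwa [hDr] at this

lemma seg_sub {p q : ℝ × ℝ} (h : (p, q) ∈ arcs ∨ (q, p) ∈ arcs) : segment ℝ p q ⊆ Q := by
  intro z hz
  rcases h with h | h
  · exact ⟨_, h, hz⟩
  · exact ⟨_, h, by rwa [segment_symm]⟩

/-- the tour made after the leaf has been reached -/
def tail : List (ℝ × ℝ) :=
  [(0, -10001), (0, -1), (0, 0), (0, 12), (-8, 12), (-8, 0), (0, 0), (8, 0), (8, 12), (0, 12)]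

lemma ok_tail : Ok (0, -1) tail := by
  simp only [tail, Ok]
  refine ⟨by simp, seg_sub (by simp [arcs]), by simp, seg_sub (by simp [arcs]), by simp,
    seg_sub (by simp [arcs]), by simp, seg_sub (by simp [arcs]), by simp,
    seg_sub (by simp [arcs]), by simp, seg_sub (by simp [arcs]), by simp,
    seg_sub (by simp [arcs]), by simp, seg_sub (by simp [arcs]), by simp,
    seg_sub (by simp [arcs]), by simp, seg_sub (by simp [arcs]), ?_⟩
  exact seg_sub (p := (0, 0)) (q := (0, 12)) (by simp [arcs]) (right_mem_segment _ _ _)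

lemma cap_of {S : Traj} {p q : ℝ × ℝ} {τ : ℝ} {n : ℕ}
    (h : ∀ z ∈ segment ℝ p q, ∃ t : ℝ≥0, (t : ℝ) ≤ τ ∧ S.1 t = z) (hn : τ ≤ n) :
    (∀ z ∈ segment ℝ p q, capture S z ≤ n) ∧ (∀ z ∈ segment ℝ q p, capture S z ≤ n) := by
  have : ∀ z ∈ segment ℝ p q, capture S z ≤ n := by
    intro z hz
    obtain ⟨t, ht, he⟩ := h z hz
    refine (capture_le he).trans ?_
    have : t ≤ (n : ℝ≥0) := by rw [← NNReal.coe_le_coe]; push_cast; linarith
    exact_mod_cast this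
  exact ⟨this, by rw [segment_symm]; exact this⟩

lemma tail_cap {S : Traj} {τ : ℝ} (k : ℕ) (hk : τ ≤ k) (hk' : k ≤ 58)
    (hv : Vis (0, -1) tail S.1 τ) :
    (∀ z ∈ segment ℝ ((0 : ℝ), (-10001 : ℝ)) (0, -1), capture S z ≤ (10000 + k : ℕ)) ∧
      ∀ z ∈ Q, capture S z ≤ (20200 : ℕ) := by
  have hk2 : (k : ℝ) ≤ 58 := by exact_mod_cast hk'
  simp only [tail, Vis] at hv
  obtain ⟨h1, h2, h3, h4, h5, h6, h7, h8, h9, h10, -⟩ := hv
  refine ⟨(cap_of h1 (by norm_num [d1]; linarith)).2, ?_⟩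
  rintro z ⟨a, ha, hz⟩
  simp only [arcs, List.mem_cons, List.not_mem_nil, or_false] at ha
  rcases ha with rfl | rfl | rfl | rfl | rfl | rfl | rfl | rfl | rfl
  · exact (cap_of h2 (by norm_num [d1]; linarith)).1 z hz
  · exact (cap_of h3 (by norm_num [d1]; linarith)).1 z hz
  · exact (cap_of h4 (by norm_num [d1]; linarith)).1 z hz
  · exact (cap_of h7 (by norm_num [d1]; linarith)).2 z hz
  · exact (cap_of h6 (by norm_num [d1]; linarith)).2 z hz
  · exact (cap_of h5 (by norm_num [d1]; linarith)).2 z hz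
  · exact (cap_of h8 (by norm_num [d1]; linarith)).1 z hz
  · exact (cap_of h9 (by norm_num [d1]; linarith)).1 z hz
  · exact (cap_of h10 (by norm_num [d1]; linarith)).1 z hz

def Early (S : Traj) (p q : ℝ × ℝ) : Prop := ∀ z ∈ segment ℝ p q, capture S z ≤ (58 : ℕ)

def Base (S : Traj) (k : ℕ) : Prop :=
  (∀ z ∈ segment ℝ ((0 : ℝ), (-10001 : ℝ)) (0, -1), capture S z ≤ (10000 + k : ℕ)) ∧
      ∀ z ∈ Q, capture S z ≤ (20200 : ℕ)

lemma exists_S0 : ∃ S : Traj, Base S 0 := by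
  obtain ⟨γ, h0, hQ, hl, hv⟩ := exists_walk _ _ ok_tail
  exact ⟨mkTraj γ h0 hQ hl, tail_cap 0 (by simp) (by simp) hv⟩

lemma exists_S1 : ∃ S : Traj, Base S 42 ∧ Early S (0, -1) (0, 0) ∧ Early S (0, 0) (0, 12) ∧
    Early S (0, 0) (-8, 0) ∧ Early S (-8, 0) (-8, 12) ∧ Early S (-8, 12) (0, 12) := by
  obtain ⟨γ, h0, hQ, hl, hv⟩ := exists_walk
    ((0, 0) :: (0, 12) :: (-8, 12) :: (-8, 0) :: (0, 0) :: (0, -1) :: tail) (0, -1)
    ⟨by simp, seg_sub (by simp [arcs]), by simp, seg_sub (by simp [arcs]), by simp,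
    seg_sub (by simp [arcs]), by simp, seg_sub (by simp [arcs]), by simp,
    seg_sub (by simp [arcs]), by simp, seg_sub (by simp [arcs]), ok_tail⟩
  obtain ⟨h1, h2, h3, h4, h5, -, h7⟩ := hv
  refine ⟨mkTraj γ h0 hQ hl, tail_cap 42 (by norm_num [d1]) (by simp) h7,
    (cap_of (S := mkTraj γ h0 hQ hl) h1 (by norm_num [d1])).1,
    (cap_of (S := mkTraj γ h0 hQ hl) h2 (by norm_num [d1])).1,
    (cap_of (S := mkTraj γ h0 hQ hl) h5 (by norm_num [d1])).2,
    (cap_of (S := mkTraj γ h0 hQ hl) h4 (by norm_num [d1])).2,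
    (cap_of (S := mkTraj γ h0 hQ hl) h3 (by norm_num [d1])).2⟩

lemma exists_S2 : ∃ S : Traj, Base S 42 ∧ Early S (0, -1) (0, 0) ∧ Early S (0, 0) (0, 12) ∧
    Early S (0, 0) (8, 0) ∧ Early S (8, 0) (8, 12) ∧ Early S (8, 12) (0, 12) := by
  obtain ⟨γ, h0, hQ, hl, hv⟩ := exists_walk
    ((0, 0) :: (0, 12) :: (8, 12) :: (8, 0) :: (0, 0) :: (0, -1) :: tail) (0, -1)
    ⟨by simp, seg_sub (by simp [arcs]), by simp, seg_sub (by simp [arcs]), by simp,
    seg_sub (by simp [arcs]), by simp, seg_sub (by simp [arcs]), by simp,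
    seg_sub (by simp [arcs]), by simp, seg_sub (by simp [arcs]), ok_tail⟩
  obtain ⟨h1, h2, h3, h4, h5, -, h7⟩ := hv
  refine ⟨mkTraj γ h0 hQ hl, tail_cap 42 (by norm_num [d1]) (by simp) h7,
    (cap_of (S := mkTraj γ h0 hQ hl) h1 (by norm_num [d1])).1,
    (cap_of (S := mkTraj γ h0 hQ hl) h2 (by norm_num [d1])).1,
    (cap_of (S := mkTraj γ h0 hQ hl) h5 (by norm_num [d1])).2,
    (cap_of (S := mkTraj γ h0 hQ hl) h4 (by norm_num [d1])).2,
    (cap_of (S := mkTraj γ h0 hQ hl) h3 (by norm_num [d1])).2⟩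

lemma exists_S3 : ∃ S : Traj, Base S 58 ∧ Early S (0, -1) (0, 0) ∧
    Early S (0, 0) (-8, 0) ∧ Early S (-8, 0) (-8, 12) ∧ Early S (-8, 12) (0, 12) ∧
    Early S (0, 0) (8, 0) ∧ Early S (8, 0) (8, 12) ∧ Early S (8, 12) (0, 12) := by
  obtain ⟨γ, h0, hQ, hl, hv⟩ := exists_walk
    ((0, 0) :: (-8, 0) :: (-8, 12) :: (0, 12) :: (8, 12) :: (8, 0) :: (0, 0) :: (0, -1) :: tail)
    (0, -1)
    ⟨by simp, seg_sub (by simp [arcs]), by simp, seg_sub (by simp [arcs]), by simp,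
    seg_sub (by simp [arcs]), by simp, seg_sub (by simp [arcs]), by simp,
    seg_sub (by simp [arcs]), by simp, seg_sub (by simp [arcs]), by simp,
    seg_sub (by simp [arcs]), by simp, seg_sub (by simp [arcs]), ok_tail⟩
  obtain ⟨h1, h2, h3, h4, h5, h6, h7, -, h9⟩ := hv
  refine ⟨mkTraj γ h0 hQ hl, tail_cap 58 (by norm_num [d1]) (by simp) h9,
    (cap_of (S := mkTraj γ h0 hQ hl) h1 (by norm_num [d1])).1,
    (cap_of (S := mkTraj γ h0 hQ hl) h2 (by norm_num [d1])).1,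
    (cap_of (S := mkTraj γ h0 hQ hl) h3 (by norm_num [d1])).1,
    (cap_of (S := mkTraj γ h0 hQ hl) h4 (by norm_num [d1])).1,
    (cap_of (S := mkTraj γ h0 hQ hl) h7 (by norm_num [d1])).2,
    (cap_of (S := mkTraj γ h0 hQ hl) h6 (by norm_num [d1])).2,
    (cap_of (S := mkTraj γ h0 hQ hl) h5 (by norm_num [d1])).2⟩

lemma comb {a b c d : ℝ≥0∞} {A B C D : ℕ} (ha : a ≤ A) (hb : b ≤ B) (hc : c ≤ C) (hd : d ≤ D)
    (h : 47 * A + 51 * (B + C + D) ≤ 2007242) : 47 * a + 51 * (b + c + d) ≤ 2007242 := by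
  calc 47 * a + 51 * (b + c + d) ≤ 47 * (A : ℝ≥0∞) + 51 * (B + C + D) := by gcongr
    _ = ((47 * A + 51 * (B + C + D) : ℕ) : ℝ≥0∞) := by push_cast; ring
    _ ≤ ((2007242 : ℕ) : ℝ≥0∞) := by exact_mod_cast h
    _ = _ := by norm_num

lemma exists_good : ∃ s : ProbabilityMeasure Traj, 200 * worst s ≤ 2007242 := by
  obtain ⟨S0, a0, b0⟩ := exists_S0
  obtain ⟨S1, ⟨a1, b1⟩, c1, d1', e1, f1, g1⟩ := exists_S1
  obtain ⟨S2, ⟨a2, b2⟩, c2, d2, e2, f2, g2⟩ := exists_S2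
  obtain ⟨S3, ⟨a3, b3⟩, c3, e3, f3, g3, e4, f4, g4⟩ := exists_S3
  have key : ∀ z ∈ Q, 47 * capture S0 z + 51 * (capture S1 z + capture S2 z + capture S3 z)
      ≤ 2007242 := by
    intro z hQ
    obtain ⟨a, ha, hz⟩ := id hQ
    simp only [arcs, List.mem_cons, List.not_mem_nil, or_false] at ha
    rcases ha with rfl | rfl | rfl | rfl | rfl | rfl | rfl | rfl | rfl
    · exact comb (a0 z hz) (a1 z hz) (a2 z hz) (a3 z hz) (by norm_num)
    · exact comb (b0 z hQ) (c1 z hz) (c2 z hz) (c3 z hz) (by norm_num)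
    · exact comb (b0 z hQ) (d1' z hz) (d2 z hz) (b3 z hQ) (by norm_num)
    · exact comb (b0 z hQ) (e1 z hz) (b2 z hQ) (e3 z hz) (by norm_num)
    · exact comb (b0 z hQ) (f1 z hz) (b2 z hQ) (f3 z hz) (by norm_num)
    · exact comb (b0 z hQ) (g1 z hz) (b2 z hQ) (g3 z hz) (by norm_num)
    · exact comb (b0 z hQ) (b1 z hQ) (e2 z hz) (e4 z hz) (by norm_num)
    · exact comb (b0 z hQ) (b1 z hQ) (f2 z hz) (f4 z hz) (by norm_num)
    · exact comb (b0 z hQ) (b1 z hQ) (g2 z hz) (g4 z hz) (by norm_num)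
  set μ : Measure Traj := (200 : ℝ≥0∞)⁻¹ • ((47 : ℝ≥0∞) • Measure.dirac S0 +
    (51 : ℝ≥0∞) • (Measure.dirac S1 + Measure.dirac S2 + Measure.dirac S3)) with hμ
  have h50 : (200 : ℝ≥0∞) * 200⁻¹ = 1 := ENNReal.mul_inv_cancel (by norm_num) (by norm_num)
  have hp : IsProbabilityMeasure μ := by
    constructor
    simp only [hμ, Measure.smul_apply, Measure.add_apply, measure_univ, smul_eq_mul]
    rw [mul_comm, show (47 : ℝ≥0∞) * 1 + 51 * (1 + 1 + 1) = 200 by norm_num, h50]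
  refine ⟨⟨μ, hp⟩, ?_⟩
  unfold worst
  simp only [ENNReal.mul_iSup]
  refine iSup₂_le fun z hz => ?_
  change 200 * ∫⁻ S, capture S z ∂μ ≤ _
  simp only [hμ, lintegral_smul_measure, lintegral_add_measure,
    lintegral_dirac' _ (measurable_capture z), smul_eq_mul]
  rw [← mul_assoc, h50, one_mul]
  exact key z hz

end Pool.Agent.H.MP_29d814_co
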