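import Mathlib
import Pool.Agent.H.MP_29d814_co.B

namespace Pool.Agent.H.MP_29d814_co

open Set MeasureTheory Filter Topology
open scoped NNReal ENNReal

lemma cross_up {φ : ℝ≥0 → ℝ} (hφ : Continuous φ) {α β : ℝ} (hαβ : α < β) {a b : ℝ≥0}
    (hab : a ≤ b) (ha : φ a ≤ α) (hb : β ≤ φ b) :
    ∃ s t, a ≤ s ∧ s < t ∧ t ≤ b ∧ φ s = α ∧ φ t = β ∧ ∀ u ∈ Icc s t, α ≤ φ u ∧ φ u ≤ β := by
  have hA : IsCompact (Icc a b ∩ {u | β ≤ φ u}) :=
    isCompact_Icc.inter_right (isClosed_le continuous_const hφ)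
  obtain ⟨t, ⟨ht, htβ⟩, htl⟩ := hA.exists_isLeast ⟨b, ⟨hab, le_rfl⟩, hb⟩
  have htβ : β ≤ φ t := htβ
  have hlt : ∀ u, a ≤ u → u < t → φ u < β := fun u hu hut => by
    by_contra hc
    exact absurd (htl ⟨⟨hu, hut.le.trans ht.2⟩, not_lt.1 hc⟩) (not_le.2 hut)
  have hte : φ t = β := by
    obtain ⟨u, hu, he⟩ := intermediate_value_Icc ht.1 hφ.continuousOn
      (show β ∈ Icc (φ a) (φ t) from ⟨by linarith, htβ⟩)
    rcases hu.2.lt_or_eq with h | h
    · exact absurd he (hlt u hu.1 h).ne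
    · rw [← h, he]
  have hB : IsCompact (Icc a t ∩ {u | φ u ≤ α}) :=
    isCompact_Icc.inter_right (isClosed_le hφ continuous_const)
  obtain ⟨s, ⟨hs, hsα⟩, hsg⟩ := hB.exists_isGreatest ⟨a, ⟨le_rfl, ht.1⟩, ha⟩
  have hsα : φ s ≤ α := hsα
  have hgt : ∀ u, s < u → u ≤ t → α < φ u := fun u hu hut => by
    by_contra hc
    exact absurd (hsg ⟨⟨hs.1.trans hu.le, hut⟩, not_lt.1 hc⟩) (not_le.2 hu)
  have hse : φ s = α := by
    obtain ⟨u, hu, he⟩ := intermediate_value_Icc hs.2 hφ.continuousOn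
      (show α ∈ Icc (φ s) (φ t) from ⟨hsα, by linarith⟩)
    rcases hu.1.lt_or_eq with h | h
    · exact absurd he (hgt u h hu.2).ne'
    · rw [h, he]
  have hst : s < t := lt_of_le_of_ne hs.2 fun h => by rw [h] at hse; linarith
  refine ⟨s, t, hs.1, hst, ht.2, hse, hte, fun u hu => ⟨?_, ?_⟩⟩
  · rcases hu.1.lt_or_eq with h | h
    · exact (hgt u h hu.2).le
    · rw [← h, hse]
  · rcases hu.2.lt_or_eq with h | h
    · exact (hlt u (hs.1.trans hu.1) h).le
    · rw [h, hte]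

lemma fst_eq_zero {z : ℝ × ℝ} (hz : z ∈ Q) (h : z.2 < 0) : z.1 = 0 := by
  obtain ⟨a, ha, hz⟩ := hz
  obtain ⟨r, h0, h1, rfl⟩ := mem_seg_iff.1 hz
  simp only [arcs, List.mem_cons, List.not_mem_nil, or_false] at ha
  rcases ha with rfl | rfl | rfl | rfl | rfl | rfl | rfl | rfl | rfl <;>
    simp only [line] at h ⊢ <;> first | (simp; done) | (exfalso; linarith)

/-- the midpoint of the bridge -/
noncomputable def Mid : ℝ × ℝ := (0, -1 / 2)

lemma mem_J {z : ℝ × ℝ} (hz : z ∈ Q) (h1 : -1 ≤ z.2) (h2 : z.2 ≤ -1 / 2) :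
    z ∈ segment ℝ O Mid := by
  have h0 := fst_eq_zero hz (by linarith)
  refine mem_seg_iff.2 ⟨2 * (z.2 + 1), by linarith, by linarith, ?_⟩
  ext
  · simp [line, O, Mid, h0]
  · simp only [line, O, Mid]; ring

lemma trav_up (S : Traj) {a b : ℝ≥0} (hab : a ≤ b) (ha : (S.1 a).2 ≤ -1) (hb : 0 ≤ (S.1 b).2) :
    ∃ s t, a ≤ s ∧ t < b ∧ Traverses S O Mid s t := by
  obtain ⟨s, t, h1, h2, h3, h4, h5, h6⟩ := cross_up (φ := fun u => (S.1 u).2)
    (continuous_snd.comp S.1.continuous) (show (-1 : ℝ) < -1 / 2 by norm_num) hab ha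
    (by linarith)
  have h4 : (S.1 s).2 = -1 := h4
  have h5 : (S.1 t).2 = -1 / 2 := h5
  refine ⟨s, t, h1, lt_of_le_of_ne h3 fun h => by rw [h] at h5; linarith, h2,
    fun u hu => mem_J (S.2.2.1 u) (h6 u hu).1 (h6 u hu).2, Or.inl ⟨?_, ?_⟩⟩
  · exact Prod.ext (fst_eq_zero (S.2.2.1 s) (by linarith)) h4
  · exact Prod.ext (fst_eq_zero (S.2.2.1 t) (by linarith)) h5

lemma trav_down (S : Traj) {a b : ℝ≥0} (hab : a ≤ b) (ha : 0 ≤ (S.1 a).2) (hb : (S.1 b).2 ≤ -1) :
    ∃ s t, a ≤ s ∧ t ≤ b ∧ Traverses S O Mid s t := by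
  obtain ⟨s, t, h1, h2, h3, h4, h5, h6⟩ := cross_up (φ := fun u => -(S.1 u).2)
    (continuous_snd.comp S.1.continuous).neg (show (1 / 2 : ℝ) < 1 by norm_num) hab
    (by show -(S.1 a).2 ≤ 1 / 2; linarith) (by show 1 ≤ -(S.1 b).2; linarith)
  have h4 : (S.1 s).2 = -1 / 2 := by have : -(S.1 s).2 = 1 / 2 := h4; linarith
  have h5 : (S.1 t).2 = -1 := by have : -(S.1 t).2 = 1 := h5; linarith
  refine ⟨s, t, h1, h3, h2, fun u hu => mem_J (S.2.2.1 u) ?_ ?_, Or.inr ⟨?_, ?_⟩⟩
  · have : -(S.1 u).2 ≤ 1 := (h6 u hu).2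
    linarith
  · have : 1 / 2 ≤ -(S.1 u).2 := (h6 u hu).1
    linarith
  · exact Prod.ext (fst_eq_zero (S.2.2.1 s) (by linarith)) h4
  · exact Prod.ext (fst_eq_zero (S.2.2.1 t) (by linarith)) h5

def px : Fin 6 → ℤ := ![-8, -8, 8, 8, 0, 0]
def py : Fin 6 → ℤ := ![0, 12, 0, 12, 4, 8]
def dz (i j : Fin 6) : ℤ := |px i - px j| + |py i - py j|
def dO (i : Fin 6) : ℤ := |px i| + |py i + 1|

noncomputable def P (i : Fin 6) : ℝ × ℝ := (px i, py i)

def Lf : ℝ × ℝ := (0, -10001)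

set_option synthInstance.maxSize 4000 in
lemma tsp : ∀ a b : Fin 6, a ≠ b → ∀ c, a ≠ c → b ≠ c → ∀ d, a ≠ d → b ≠ d → c ≠ d →
    ∀ e, a ≠ e → b ≠ e → c ≠ e → d ≠ e → ∀ f, a ≠ f → b ≠ f → c ≠ f → d ≠ f → e ≠ f →
    74 ≤ dO a + dz a b + dz b c + dz c d + dz d e + dz e f + dO f := by
  decide +kernel

lemma py_nonneg (i : Fin 6) : 0 ≤ py i := by revert i; decide

lemma d1_P (i j : Fin 6) : d1 (P i) (P j) = dz i j := by simp [d1, P, dz]

lemma d1_O (i : Fin 6) : d1 O (P i) = dO i := by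
  simp only [d1, P, dO, O]
  push_cast
  rw [zero_sub, abs_neg, show (-1 : ℝ) - py i = -(py i + 1) by ring, abs_neg]

lemma d1_L (i : Fin 6) : d1 (P i) Lf = dO i + 10000 := by
  have h : (0 : ℝ) ≤ py i := by exact_mod_cast py_nonneg i
  simp only [d1, P, dO, Lf]
  push_cast
  rw [sub_zero, abs_of_nonneg (show (0 : ℝ) ≤ py i - -10001 by linarith),
    abs_of_nonneg (show (0 : ℝ) ≤ py i + 1 by linarith)]
  ring

lemma P_mem (i : Fin 6) : P i ∈ Q := by
  fin_cases i
  · exact ⟨((0, 0), (-8, 0)), by simp [arcs], by simpa [P, px, py] using right_mem_segment _ _ _⟩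
  · exact ⟨((-8, 0), (-8, 12)), by simp [arcs], by simpa [P, px, py] using right_mem_segment _ _ _⟩
  · exact ⟨((0, 0), (8, 0)), by simp [arcs], by simpa [P, px, py] using right_mem_segment _ _ _⟩
  · exact ⟨((8, 0), (8, 12)), by simp [arcs], by simpa [P, px, py] using right_mem_segment _ _ _⟩
  · exact ⟨((0, 0), (0, 12)), by simp [arcs], mem_seg_iff.2 ⟨1 / 3, by norm_num, by norm_num,
      by simp [line, P, px, py]; norm_num⟩⟩
  · exact ⟨((0, 0), (0, 12)), by simp [arcs], mem_seg_iff.2 ⟨2 / 3, by norm_num, by norm_num,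
      by simp [line, P, px, py]; norm_num⟩⟩

lemma L_mem : Lf ∈ Q := ⟨((0, -10001), (0, -1)), by simp [arcs], left_mem_segment _ _ _⟩

lemma step (S : Traj) {s t : ℝ≥0} (h : s ≤ t) : d1 (S.1 s) (S.1 t) ≤ t - s := by
  have := traj_lip S s t
  rwa [abs_sub_comm, abs_of_nonneg (sub_nonneg.2 (by exact_mod_cast h))] at this

lemma good_bound (S : Traj) (hS : ¬ Thrice S O Mid) :
    (602200000 : ℝ≥0∞) ≤ 59778 * capture S Lf + 37 * ∑ i, capture S (P i) := by
  by_cases hL : capture S Lf = ⊤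
  · rw [hL, ENNReal.mul_top (by norm_num)]; simp
  by_cases hP : ∃ i, capture S (P i) = ⊤
  · obtain ⟨i, hi⟩ := hP
    have : ∑ i, capture S (P i) = ⊤ := ENNReal.sum_eq_top.2 ⟨i, Finset.mem_univ _, hi⟩
    rw [this, ENNReal.mul_top (by norm_num)]; simp
  push Not at hP
  obtain ⟨tL, hL1, hL2, -⟩ := exists_first hL
  choose t h1 h2 h3 using fun i => exists_first (hP i)
  have hy : ∀ i, 0 ≤ (S.1 (t i)).2 := fun i => by
    rw [h1]; show (0 : ℝ) ≤ (py i : ℝ); exact_mod_cast py_nonneg i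
  have hyL : (S.1 tL).2 ≤ -1 := by rw [hL1]; simp only [Lf]; norm_num
  have h0 : S.1 0 = O := S.2.1
  have hreal : (602200000 : ℝ) ≤ 59778 * tL + 37 * ∑ i, (t i : ℝ) := by
    have hnn : ∀ i, (0 : ℝ) ≤ t i := fun i => (t i).2
    by_cases hall : ∀ i, t i ≤ tL
    · set σ := Tuple.sort t
      have hm : Monotone (t ∘ σ) := Tuple.monotone_sort t
      have hne : ∀ a b : Fin 6, a ≠ b → σ a ≠ σ b := fun a b h => σ.injective.ne h
      have ht := tsp (σ 0) (σ 1) (hne _ _ (by decide)) (σ 2) (hne _ _ (by decide))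
        (hne _ _ (by decide)) (σ 3) (hne _ _ (by decide)) (hne _ _ (by decide))
        (hne _ _ (by decide)) (σ 4) (hne _ _ (by decide)) (hne _ _ (by decide))
        (hne _ _ (by decide)) (hne _ _ (by decide)) (σ 5) (hne _ _ (by decide))
        (hne _ _ (by decide)) (hne _ _ (by decide)) (hne _ _ (by decide)) (hne _ _ (by decide))
      have ht' : (74 : ℝ) ≤ dO (σ 0) + dz (σ 0) (σ 1) + dz (σ 1) (σ 2) + dz (σ 2) (σ 3) +
          dz (σ 3) (σ 4) + dz (σ 4) (σ 5) + dO (σ 5) := by exact_mod_cast ht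
      have st : ∀ a b : Fin 6, a ≤ b → (dz (σ a) (σ b) : ℝ) ≤ t (σ b) - t (σ a) := by
        intro a b hab
        have := step S (hm hab)
        simp only [Function.comp] at this
        rwa [h1, h1, d1_P] at this
      have s0 := step S (zero_le (a := t (σ 0)))
      rw [h0, h1, d1_O] at s0
      have s5 := step S (hall (σ 5))
      rw [hL1, h1, d1_L] at s5
      have := st 0 1 (by decide)
      have := st 1 2 (by decide)
      have := st 2 3 (by decide)
      have := st 3 4 (by decide)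
      have := st 4 5 (by decide)
      have hs : (0 : ℝ) ≤ ∑ i, (t i : ℝ) := Finset.sum_nonneg fun i _ => hnn i
      simp only [NNReal.coe_zero] at s0
      linarith
    · push Not at hall
      obtain ⟨j, hj⟩ := hall
      have hall : ∀ i, tL ≤ t i := by
        intro i
        by_contra hc
        have hi := (not_le.1 hc).le
        obtain ⟨s1, t1, -, e1, T1⟩ := trav_up S (zero_le (a := t i)) (by rw [h0]; simp [O]) (hy i)
        obtain ⟨s2, t2, b2, e2, T2⟩ := trav_down S hi (hy i) hyL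
        obtain ⟨s3, t3, b3, e3, T3⟩ := trav_up S hj.le hyL (hy j)
        exact hS ⟨s1, t1, s2, t2, s3, t3, T1, T2, T3, e1.le.trans b2, e2.trans b3, P j, P_mem j,
          fun u hu he => absurd (h3 j u he) (not_le.2 (hu.trans_lt e3))⟩
      have sL := step S (zero_le (a := tL))
      rw [h0, hL1] at sL
      have eL : d1 O Lf = 10000 := by norm_num [d1, O, Lf]
      simp only [NNReal.coe_zero] at sL
      have hi : ∀ i, (20000 : ℝ) ≤ t i := fun i => by
        have := step S (hall i)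
        rw [hL1, h1, d1_comm, d1_L, ← d1_O] at this
        have := d1_nonneg O (P i)
        linarith
      have hs : ∑ _i : Fin 6, (20000 : ℝ) ≤ ∑ i, (t i : ℝ) := Finset.sum_le_sum fun i _ => hi i
      simp only [Finset.sum_const, Finset.card_univ, Fintype.card_fin, nsmul_eq_mul] at hs
      push_cast at hs
      linarith
  simp_rw [hL2, h2]
  have : (602200000 : ℝ≥0) ≤ 59778 * tL + 37 * ∑ i, t i := by
    rw [← NNReal.coe_le_coe]; push_cast; exact hreal
  exact_mod_cast this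

lemma thrice_pos (s : ProbabilityMeasure Traj) (hs : Optimal s) :
    0 < (s : Measure Traj) {S | Thrice S O Mid} := by
  rw [pos_iff_ne_zero]
  intro h0
  have hae : ∀ᵐ S ∂(s : Measure Traj), ¬ Thrice S O Mid := by
    rw [ae_iff]; simpa using h0
  obtain ⟨s0, hs0⟩ := exists_good
  have h1 : worst s ≤ worst s0 := by rw [hs]; exact iInf_le _ _
  have hw : ∀ z ∈ Q, ∫⁻ S, capture S z ∂(s : Measure Traj) ≤ worst s := fun z hz =>
    le_iSup₂_of_le (f := fun H (_ : H ∈ Q) => ∫⁻ S, capture S H ∂(s : Measure Traj)) z hz le_rfl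
  have h2 : (602200000 : ℝ≥0∞) ≤ 60000 * worst s := by
    calc (602200000 : ℝ≥0∞) = ∫⁻ _S, 602200000 ∂(s : Measure Traj) := by simp
      _ ≤ ∫⁻ S, (59778 * capture S Lf + 37 * ∑ i, capture S (P i)) ∂(s : Measure Traj) :=
          lintegral_mono_ae (hae.mono fun S hS => good_bound S hS)
      _ = 59778 * ∫⁻ S, capture S Lf ∂(s : Measure Traj) +
          37 * ∑ i, ∫⁻ S, capture S (P i) ∂(s : Measure Traj) := by
          rw [lintegral_add_left ((measurable_capture _).const_mul _),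
            lintegral_const_mul _ (measurable_capture _),
            lintegral_const_mul _ (Finset.measurable_sum _ fun i _ => measurable_capture _),
            lintegral_finsetSum _ fun i _ => measurable_capture _]
      _ ≤ 59778 * worst s + 37 * ∑ _i : Fin 6, worst s := by
          gcongr with i
          · exact hw _ L_mem
          · exact hw _ (P_mem i)
      _ = 60000 * worst s := by
          simp only [Finset.sum_const, Finset.card_univ, Fintype.card_fin, nsmul_eq_mul]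
          push_cast
          ring
  have h3 : (60000 : ℝ≥0∞) * worst s ≤ 300 * 2007242 := by
    calc (60000 : ℝ≥0∞) * worst s = 300 * (200 * worst s) := by ring
      _ ≤ 300 * (200 * worst s0) := by gcongr
      _ ≤ _ := by gcongr
  have := h2.trans h3
  norm_num at this

end Pool.Agent.H.MP_29d814_co
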